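import Pool.Agent.helper23.P2Z.Spec

/-!
# Project p2z: (MP_70a088_an, P2): MUL, multipliers
-/

set_option autoImplicit false

open Complex Metric Set Filter Topology MeasureTheory
open V3S (UF)
open WP (it)
open V3 (Chain chi)

noncomputable section

namespace P2Z

theorem MUL_it (f : Polynomial ℂ) (n : ℕ) : it f n = (fun z : ℂ => f.eval z)^[n] := by
  funext z
  rfl

theorem MUL : MUL_stmt := by
  intro f q m z hm hmq hmz hqz hle
  set φ : ℂ → ℂ := fun z : ℂ => f.eval z with hφ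
  rw [MUL_it] at hmz hqz hle
  rw [MUL_it, MUL_it]
  have hpm : Function.IsPeriodicPt φ m z := hmz
  have hpq : Function.IsPeriodicPt φ q z := hqz
  have hpg : Function.IsPeriodicPt φ (m.gcd q) z := hpm.gcd hpq
  have hgz : φ^[m.gcd q] z = z := hpg
  have hd : Differentiable ℂ (φ^[m.gcd q]) := Differentiable.iterate f.differentiable _
  obtain ⟨m', hm'⟩ := Nat.gcd_dvd_left m q
  obtain ⟨q', hq'⟩ := Nat.gcd_dvd_right m q
  have hg : 0 < m.gcd q := Nat.gcd_pos_of_pos_left q hm
  have key : ∀ n : ℕ, deriv (φ^[m.gcd q * n]) z = (deriv (φ^[m.gcd q]) z) ^ n := by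
    intro n
    have h1 := (hd z).hasDerivAt.iterate (x := z) hgz n
    rw [← Function.iterate_mul] at h1
    exact h1.deriv
  have hm0 : m' ≠ 0 := by
    rintro rfl
    rw [mul_zero] at hm'
    omega
  have hle' : m' ≤ q' := by
    have h2 : m.gcd q * m' ≤ m.gcd q * q' := by rw [← hm', ← hq']; exact hmq
    exact Nat.le_of_mul_le_mul_left h2 hg
  have h3 : deriv (φ^[m]) z = (deriv (φ^[m.gcd q]) z) ^ m' := by
    rw [← key m', ← hm']
  have h4 : deriv (φ^[q]) z = (deriv (φ^[m.gcd q]) z) ^ q' := by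
    rw [← key q', ← hq']
  rw [h3] at hle ⊢
  rw [h4, norm_pow, norm_pow]
  rw [norm_pow] at hle
  have h5 : ‖deriv (φ^[m.gcd q]) z‖ ≤ 1 := (pow_le_one_iff_of_nonneg (norm_nonneg _) hm0).1 hle
  exact pow_le_pow_of_le_one (norm_nonneg _) h5 hle'

end P2Z
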